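import Pool.Agent.MP_13e7a1_an.H82.Tools

/-!
Decreasing sequences of almost plurisubharmonic functions with fixed boundary data have
differentials that are Cauchy in `L²`.
-/

open scoped ContDiff Topology Matrix
open Set Metric MeasureTheory Filter

noncomputable section

namespace Pool.Agent.MP_13e7a1_an.H39

open Pool.Agent.MP_13e7a1_an.H82

/-- A bounded, almost increasing sequence is almost constant. -/
theorem seq_close {b : ℕ → ℝ} {B : ℝ} (hB : ∀ j, b j ≤ B)
    (h : ∀ ε > 0, ∃ N : ℕ, ∀ j ≥ N, ∀ k ≥ j, b j - ε ≤ b k) :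
    ∀ ε > 0, ∃ N : ℕ, ∀ j ≥ N, ∀ k ≥ j, b k - b j ≤ ε := by
  intro ε hε
  obtain ⟨N, hN⟩ := h (ε / 2) (by positivity)
  have hne : (b '' {j | N ≤ j}).Nonempty := ⟨b N, N, le_refl N, rfl⟩
  have hbd : BddAbove (b '' {j | N ≤ j}) := ⟨B, by rintro _ ⟨j, -, rfl⟩; exact hB j⟩
  obtain ⟨_, ⟨j₀, hj₀, rfl⟩, hlt⟩ :=
    exists_lt_of_lt_csSup hne (show sSup (b '' {j | N ≤ j}) - ε / 2 < _ by linarith)
  refine ⟨j₀, fun j hj k hk => ?_⟩
  have h1 := hN j₀ hj₀ j hj
  have h2 : b k ≤ sSup (b '' {j | N ≤ j}) :=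
    le_csSup hbd ⟨k, (le_trans hj₀ hj).trans hk, rfl⟩
  linarith

/-- The energy form. -/
def BB (c : Ctx) (D : Set E) (g h : E → ℝ) : ℝ :=
  ∫ x in D, c.w (c.s x (grad g x) (grad h x)) (c.Om x)

theorem cont_BB (c : Ctx) {g h : E → ℝ} (hg : ContDiff ℝ ∞ g) (hh : ContDiff ℝ ∞ h) :
    Continuous fun x => c.w (c.s x (grad g x) (grad h x)) (c.Om x) :=
  c.continuous_w (c.continuous_s (continuous_grad hg) (continuous_grad hh)) c.continuous_Om

theorem ws_symm (hB : SLinB) (c : Ctx) (x : E) (p q : V) :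
    c.w (c.s x p q) (c.Om x) = c.w (c.s x q p) (c.Om x) := by
  have h := c.w_orth hB (c.Om_pos x).1 (c.al_anti x p q)
  rw [c.w_comm, Ctx.al, c.w_sub_left] at h
  linarith

theorem BB_split (hB : SLinB) (c : Ctx) {D : Set E} (hD : IsCompact D) {g h : E → ℝ}
    (hg : ContDiff ℝ ∞ g) (hh : ContDiff ℝ ∞ h) :
    BB c D (fun x => g x - h x) (fun x => g x - h x) =
      BB c D h h - BB c D g g + 2 * BB c D (fun x => g x - h x) g := by
  unfold BB
  have c1 := cont_BB c hh hh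
  have c2 := cont_BB c hg hg
  have c3 := cont_BB c (hg.sub hh) hg
  rw [← int_sub hD c1 c2, ← integral_const_mul, ← int_add hD (by fun_prop) (by fun_prop)]
  refine int_congr hD fun x _ => ?_
  simp only [grad_sub hg hh, c.s_sub_left, c.s_sub_right, c.w_sub_left]
  rw [ws_symm hB c x (grad g x) (grad h x)]
  ring

theorem BB_coer (hB : SLinB) (c : Ctx) {D : Set E} (hD : IsCompact D) :
    ∃ a : ℝ, 0 < a ∧ ∀ g : E → ℝ, ContDiff ℝ ∞ g →
      a * ∫ x in D, ‖grad g x‖ ^ 2 ≤ BB c D g g := by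
  obtain ⟨a, ha, h⟩ := c.coer hB hD
  refine ⟨a, ha, fun g hg => ?_⟩
  rw [← integral_const_mul]
  have := continuous_grad hg
  exact int_mono hD (by fun_prop) (cont_BB c hg hg) fun x hx => h x hx _

/-- The one-sided bound given by integration by parts. -/
theorem BB_le (hA : SLinA) (hI : SIntB) (c : Ctx) {D : Set E} (hD : IsCompact D) (K : ℝ) :
    ∃ C : ℝ, 0 ≤ C ∧ ∀ h g : E → ℝ, ContDiff ℝ ∞ h → ContDiff ℝ ∞ g → (∀ x, x ∉ D → h x = 0) →
      (∀ x ∈ D, 0 ≤ h x) → (∀ x ∈ D, c.Pos x (c.T g x + K • c.Om x)) →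
      BB c D h g ≤ ∫ x in D, C * h x * (1 + ‖grad g x‖) := by
  obtain ⟨Y, hY, hl⟩ := hI.lap c
  obtain ⟨y, hy, hYb⟩ := exists_bound hD hY
  obtain ⟨m, hm, hOm⟩ := exists_bound hD (c.continuous_w c.continuous_Om c.continuous_Om)
  refine ⟨4 * y + |K| * m, by positivity, fun h g hh hg h0 hpos hP => ?_⟩
  have e := hl D hD h g hh hg h0
  have hgc := continuous_grad hg
  have hhc := hh.continuous
  have c1 : Continuous fun x => h x * (Y x ⬝ᵥ grad g x) := hhc.mul (hY.dotProduct hgc)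
  have c2 : Continuous fun x => h x * c.w (c.T g x) (c.Om x) :=
    hhc.mul (c.continuous_w (c.continuous_T hg) c.continuous_Om)
  have e2 : BB c D h g =
      ∫ x in D, (h x * (Y x ⬝ᵥ grad g x) - h x * c.w (c.T g x) (c.Om x)) := by
    rw [int_sub hD c1 c2, e]; unfold BB; ring
  rw [e2]
  refine int_mono hD (c1.sub c2) (by fun_prop) fun x hx => ?_
  have k1 := c.w_pos hA (hP x hx) (c.Om_pos x)
  rw [c.w_add_left, c.w_smul_left] at k1
  have k2 : K * c.w (c.Om x) (c.Om x) ≤ |K| * m := by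
    refine (le_abs_self _).trans ?_
    rw [abs_mul]
    exact mul_le_mul_of_nonneg_left (hOm x hx) (abs_nonneg _)
  have k3 : Y x ⬝ᵥ grad g x ≤ 4 * y * ‖grad g x‖ := by
    refine (le_abs_self _).trans ((abs_dot_le _ _).trans ?_)
    have := mul_le_mul_of_nonneg_right (hYb x hx) (norm_nonneg (grad g x))
    linarith
  have k4 : Y x ⬝ᵥ grad g x - c.w (c.T g x) (c.Om x) ≤ (4 * y + |K| * m) * (1 + ‖grad g x‖) := by
    have := mul_nonneg (mul_nonneg (abs_nonneg K) hm) (norm_nonneg (grad g x))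
    nlinarith
  have := mul_le_mul_of_nonneg_left k4 (hpos x hx)
  linarith

theorem w12 (hA : SLinA) (hB : SLinB) (hI : SIntB) : SW12 := by
  intro c D hD f η K ρ hf hρ hout hge
  obtain ⟨K₀, -, hK₀⟩ := c.T_dominate hD hρ
  obtain ⟨a, ha, hco⟩ := BB_coer hB c hD
  obtain ⟨C, hC, hle⟩ := BB_le hA hI c hD (K + K₀)
  obtain ⟨r, hr, hρb⟩ := exists_bound hD hρ.continuous
  set F : ℕ → E → ℝ := fun j x => f j x - ρ x with hF
  have hFs : ∀ j, ContDiff ℝ ∞ (F j) := fun j => (hf.smooth j).sub hρ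
  have hFc : ∀ j, Continuous (grad (F j)) := fun j => continuous_grad (hFs j)
  have hF0 : ∀ j x, x ∉ D → F j x = 0 := fun j x hx => sub_eq_zero.2 (hout j x hx)
  have hFn : ∀ j, ∀ x ∈ D, 0 ≤ F j x := fun j x hx => sub_nonneg.2 (hge j x hx)
  have hFb : ∀ j, ∀ x ∈ D, F j x ≤ |K| + r := fun j x hx => by
    have h1 := (abs_le.1 (hf.bdd j x hx)).2
    have h2 := (abs_le.1 (show |ρ x| ≤ r from hρb x hx)).1
    have h3 := le_abs_self K
    simp only [hF]
    linarith
  have hFP : ∀ j, ∀ x ∈ D, c.Pos x (c.T (F j) x + (K + K₀) • c.Om x) := fun j x hx => by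
    have h := (hf.posK j hx).add (hK₀ x hx).2
    have e : c.T (F j) x + (K + K₀) • c.Om x =
        c.T (f j) x + K • c.Om x + (-c.T ρ x + K₀ • c.Om x) := by
      rw [hF, c.T_sub (hf.smooth j) hρ, add_smul]; abel
    rw [e]; exact h
  set L : ℝ := C * (|K| + r) with hL
  have hL0 : 0 ≤ L := by positivity
  set C₃ : ℝ := volume.real D * (L + L ^ 2 / (2 * a)) with hC₃
  have hC₃0 : 0 ≤ C₃ := by positivity
  have hB1 : ∀ j, BB c D (F j) (F j) ≤ a / 2 * (∫ x in D, ‖grad (F j) x‖ ^ 2) + C₃ := fun j => by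
    refine (hle _ _ (hFs j) (hFs j) (hF0 j) (hFn j) (hFP j)).trans ?_
    have h1 := hFc j
    have h2 := (hFs j).continuous
    rw [hC₃, ← int_const, ← integral_const_mul, ← int_add hD (by fun_prop) continuous_const]
    refine int_mono hD (by fun_prop) (by fun_prop) fun x hx => ?_
    have k1 : C * F j x ≤ L := mul_le_mul_of_nonneg_left (hFb j x hx) hC
    have k2 := mul_le_mul_of_nonneg_right k1
      (show 0 ≤ 1 + ‖grad (F j) x‖ by positivity)
    have k3 : L * ‖grad (F j) x‖ ≤ a / 2 * ‖grad (F j) x‖ ^ 2 + L ^ 2 / (2 * a) := by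
      have e : a / 2 * ‖grad (F j) x‖ ^ 2 + L ^ 2 / (2 * a) - L * ‖grad (F j) x‖ =
          (a * ‖grad (F j) x‖ - L) ^ 2 / (2 * a) := by field_simp; ring
      have : 0 ≤ (a * ‖grad (F j) x‖ - L) ^ 2 / (2 * a) := by positivity
      linarith
    linarith
  have hE : ∀ j, a * ∫ x in D, ‖grad (F j) x‖ ^ 2 ≤ 2 * C₃ := fun j => by
    have := hco _ (hFs j)
    linarith [hB1 j]
  have hB2 : ∀ j, BB c D (F j) (F j) ≤ 2 * C₃ := fun j => by linarith [hB1 j, hE j]
  have hanti : ∀ j k, j ≤ k → ∀ x ∈ D, 0 ≤ F j x - F k x := fun j k hjk x hx => by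
    have := anti_of_succ hf.anti hx hjk
    simp only [hF]
    linarith
  -- the cross term is small
  have hX : ∀ ε > 0, ∃ N : ℕ, ∀ j ≥ N, ∀ k ≥ j,
      BB c D (fun x => F j x - F k x) (F j) ≤ ε := by
    intro ε hε
    set t : ℝ := ε * a / (4 * (C₃ + 1)) with ht
    have ht0 : 0 < t := by positivity
    set Q : ℝ := C + C * L / (4 * t) + 1 with hQ
    have hQ0 : 0 < Q := by positivity
    obtain ⟨N, hN⟩ := l1_cauchy hD (fun j => (hf.smooth j).continuous) hf.anti hf.bdd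
      (ε / (2 * Q)) (by positivity)
    refine ⟨N, fun j hj k hk => ?_⟩
    refine (hle _ _ ((hFs j).sub (hFs k)) (hFs j)
      (fun x hx => by rw [hF0 j x hx, hF0 k x hx, sub_zero]) (hanti j k hk) (hFP j)).trans ?_
    have h1 := hFc j
    have h2 := (hFs j).continuous
    have h3 := (hFs k).continuous
    have h4 := (hf.smooth j).continuous
    have h5 := (hf.smooth k).continuous
    have i1 : ∫ x in D, C * (F j x - F k x) * (1 + ‖grad (F j) x‖) ≤
        ∫ x in D, (t * ‖grad (F j) x‖ ^ 2 + Q * (f j x - f k x)) := by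
      refine int_mono hD (by fun_prop) (by fun_prop) fun x hx => ?_
      have e : f j x - f k x = F j x - F k x := by simp only [hF]; ring
      rw [e]
      have g0 := hanti j k hk x hx
      have g1 : F j x - F k x ≤ |K| + r := by linarith [hFb j x hx, hFn k x hx]
      generalize F j x - F k x = G at g0 g1
      generalize ‖grad (F j) x‖ = u
      have g2 : C * G ≤ L := mul_le_mul_of_nonneg_left g1 hC
      have g3 : 0 ≤ C * G := mul_nonneg hC g0
      have g4 : C * G * u ≤ t * u ^ 2 + (C * G) ^ 2 / (4 * t) := by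
        have e : t * u ^ 2 + (C * G) ^ 2 / (4 * t) - C * G * u =
            (2 * t * u - C * G) ^ 2 / (4 * t) := by field_simp; ring
        have : 0 ≤ (2 * t * u - C * G) ^ 2 / (4 * t) := by positivity
        linarith
      have g5 : (C * G) ^ 2 / (4 * t) ≤ C * L / (4 * t) * G := by
        rw [div_mul_eq_mul_div]
        refine div_le_div_of_nonneg_right ?_ (by positivity)
        nlinarith [mul_le_mul_of_nonneg_left g2 g3]
      rw [hQ]
      nlinarith
    rw [int_add hD (by fun_prop) (by fun_prop), integral_const_mul, integral_const_mul] at i1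
    have i2 : Q * ∫ x in D, (f j x - f k x) ≤ ε / 2 :=
      (mul_le_mul_of_nonneg_left (hN j hj k hk) hQ0.le).trans (le_of_eq (by field_simp))
    have i3 : t * ∫ x in D, ‖grad (F j) x‖ ^ 2 ≤ ε / 2 := by
      have e : t * ∫ x in D, ‖grad (F j) x‖ ^ 2 =
          ε / (4 * (C₃ + 1)) * (a * ∫ x in D, ‖grad (F j) x‖ ^ 2) := by
        rw [ht]; ring
      rw [e]
      refine (mul_le_mul_of_nonneg_left (hE j) (by positivity)).trans ?_
      rw [div_mul_eq_mul_div, div_le_iff₀ (by positivity)]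
      nlinarith
    linarith
  have hco' : ∀ j k, a * ∫ x in D, ‖grad (f j) x - grad (f k) x‖ ^ 2 ≤
      BB c D (F k) (F k) - BB c D (F j) (F j) + 2 * BB c D (fun x => F j x - F k x) (F j) := by
    intro j k
    rw [← BB_split hB c hD (hFs j) (hFs k)]
    refine le_trans (le_of_eq ?_) (hco _ ((hFs j).sub (hFs k)))
    refine congrArg (fun s => a * s) (int_congr hD fun x _ => ?_)
    rw [grad_sub (hFs j) (hFs k), hF, grad_sub (hf.smooth j) hρ, grad_sub (hf.smooth k) hρ,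
      sub_sub_sub_cancel_right]
  have hn : ∀ j k, 0 ≤ a * ∫ x in D, ‖grad (f j) x - grad (f k) x‖ ^ 2 := fun j k =>
    mul_nonneg ha.le (int_nonneg hD fun x _ => sq_nonneg _)
  have hcl := seq_close (b := fun j => BB c D (F j) (F j)) hB2 fun ε hε => by
    obtain ⟨N, hN⟩ := hX (ε / 2) (by positivity)
    exact ⟨N, fun j hj k hk => by linarith [hN j hj k hk, hco' j k, hn j k]⟩
  have key : ∀ ε > 0, ∃ N : ℕ, ∀ j ≥ N, ∀ k ≥ j,
      ∫ x in D, ‖grad (f j) x - grad (f k) x‖ ^ 2 ≤ ε := fun ε hε => by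
    obtain ⟨N₁, h₁⟩ := hX (a * ε / 4) (by positivity)
    obtain ⟨N₂, h₂⟩ := hcl (a * ε / 2) (by positivity)
    refine ⟨max N₁ N₂, fun j hj k hk => le_of_mul_le_mul_left ?_ ha⟩
    have k1 := h₁ j (le_of_max_le_left hj) k hk
    have k2 := h₂ j (le_of_max_le_right hj) k hk
    linarith [hco' j k]
  intro ε hε
  obtain ⟨N, hN⟩ := key ε hε
  refine ⟨N, fun j hj k hk => ?_⟩
  rcases le_total j k with h | h
  · exact hN j hj k h
  · simpa only [norm_sub_rev (grad (f k) _)] using hN k hk j h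

end Pool.Agent.MP_13e7a1_an.H39
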